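import Pool.Agent.Helper11U.EllMain

/-!
# A rationally elliptic variety which is not of Hodge–Tate type

Let `V` be the smooth affine threefold `x² + y² + z² + t³ = 1` over `ℂ`. It is homotopy equivalent to a bouquet of
two spheres of dimension three, and `H³(V)` is the Hodge structure `H¹(E)(-1)` of the elliptic curve
`E : w² + t³ = 1`, so it has the Hodge numbers `h^{2,1} = h^{1,2} = 1`. Let `X = Sym² V = (V × V) / S_2`, an
affine variety (the spectrum of the ring of invariants).

* `X` is simply connected (Armstrong).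
* `H^*(X, ℚ)` is the ring of invariants of the exchange of the factors on `H^*(V × V, ℚ) =
  H^*(V, ℚ) ⊗ H^*(V, ℚ)`. Let `α, β` be a basis of `H³(V, ℚ)`. Then `1`, `α' = α ⊗ 1 + 1 ⊗ α`,
  `β' = β ⊗ 1 + 1 ⊗ β` and `α' β' = α ⊗ β - β ⊗ α` are a basis of the invariants, because the degrees are
  odd. So `H^*(X, ℚ)` is the exterior algebra generated by `α'` and `β'`.
* Hence `X` has the rational homotopy type of `S³ × S³`: it is rationally elliptic.
* The morphism `V → X`, `v ↦ v + v_0`, induces a surjective map `H³(X) → H³(V)` of mixed Hodge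
  structures. So `h^{3,2,1}(X) ≠ 0`.

The theorem is stated for the analytic space `An B` of the complex points of `Spec B` (with the topology
of the complex numbers), the singular homology and the homotopy groups of Mathlib. The rational
cohomology rings and the filtrations of Deligne are data (`HodgeThy`), and the known theorems about them
are the hypothesis `IsHodgeThy`. What is proved: the space of complex points of `V × V` is a product and
simply connected; the invariants, and that they are an exterior algebra; the surjectivity of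
`H³(X) → H³(V)`; `X` is an affine variety (of finite type, reduced and irreducible).
-/

set_option autoImplicit false

open Pool.Agent.Helper11U.Ell

namespace Pool.Agent.Results.MP_2059f1_ag.SymmetricSquare

/-- The exponents of the equation `x² + y² + z² + t³ = 1`. -/
def a : Fin (3 + 1) → ℕ := ![2, 2, 2, 3]

/-- The ring of functions of the threefold `V : x² + y² + z² + t³ = 1`. -/
abbrev V : Type := Pham a

/-- The ring of functions of `X = Sym² V`. -/
abbrev X : Type := SymSq V

/-- `Spec B` is an affine variety over `ℂ`: of finite type, reduced and irreducible. -/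
def IsVariety (B : Type) [CommRing B] [Algebra ℂ B] : Prop := Algebra.FiniteType ℂ B ∧ IsDomain B

/-- **Theorem.** The symmetric square `X` of the threefold `x² + y² + z² + t³ = 1` is an affine variety which is
rationally elliptic, and `h^{3,2,1}(X) ≠ 0`: the mixed Hodge structure on its cohomology is not of
Hodge–Tate type. So the answer to the question is negative. -/
theorem result (D : HodgeThy) (hD : IsHodgeThy D) :
    IsVariety X ∧ RationallyElliptic (An X) ∧ D.h X 3 2 1 ≠ 0 := by
  change IsVariety (SymSq (Pham ![2, 2, 2, 3])) ∧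
    RationallyElliptic (An (SymSq (Pham ![2, 2, 2, 3]))) ∧ D.h (SymSq (Pham ![2, 2, 2, 3])) 3 2 1 ≠ 0
  have ha : ∀ i : Fin 4, 2 ≤ (![2, 2, 2, 3] : Fin 4 → ℕ) i := by decide
  have hB := finiteType_pham (n := 3) ![2, 2, 2, 3]
  obtain ⟨hs, hf⟩ := hD.pham 3 ![2, 2, 2, 3] (by norm_num) ha
  have hprod : ∏ i, ((![2, 2, 2, 3] : Fin 4 → ℕ) i - 1) = 2 := by decide
  rw [hprod] at hf
  obtain ⟨h1, h2⟩ := sym_elliptic hD hB hs (n := 3) (by decide) hf
  refine ⟨⟨sym2_finiteType hB, sym_isDomain⟩, h1, ?_⟩
  have h3 := hD.steenbrink 3 ![2, 2, 2, 3] (by norm_num) ha 2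
  rw [spec] at h3
  have h4 : 0 < D.h (Pham ![2, 2, 2, 3]) 3 2 1 := by
    have e : (((3 : ℕ) : ℤ) - 2) = 1 := by norm_num
    rw [e] at h3
    rw [h3, Nat.card_pos_iff]
    refine ⟨⟨⟨fun i => ⟨1, lt_of_lt_of_le (by norm_num) (ha i)⟩, fun i => Nat.one_pos, ?_, ?_⟩⟩,
      inferInstance⟩
    · rw [Fin.sum_univ_four]
      change ((1 : ℤ) : ℚ) < ((1 : ℕ) : ℚ) / ((2 : ℕ) : ℚ) +
        ((1 : ℕ) : ℚ) / ((2 : ℕ) : ℚ) + ((1 : ℕ) : ℚ) / ((2 : ℕ) : ℚ) + ((1 : ℕ) : ℚ) / ((3 : ℕ) : ℚ)
      norm_num
    · rw [Fin.sum_univ_four]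
      change ((1 : ℕ) : ℚ) / ((2 : ℕ) : ℚ) + ((1 : ℕ) : ℚ) / ((2 : ℕ) : ℚ) +
        ((1 : ℕ) : ℚ) / ((2 : ℕ) : ℚ) + ((1 : ℕ) : ℚ) / ((3 : ℕ) : ℚ) < ((1 : ℤ) : ℚ) + 1
      norm_num
  exact (lt_of_lt_of_le h4 (h2 2 1)).ne'

end Pool.Agent.Results.MP_2059f1_ag.SymmetricSquare
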